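import Pool.Agent.Helper63.G.Rcnt

/-!
# The robust counting lemma with pockets

As `BIC.Cnt.rcnt'`, but besides the elements with at most two locations there may be *pockets*:
disjoint sets of locations with at most two attachments outside; an element with a location in a
pocket may have any locations in the pocket and at its attachments, and no others.
-/

open Set

namespace BIC.Cnt

open BIC

variable {α β V U ι : Type*}

/-- The last step of the robust count: a family `T` of blocks `Wv v ⊆ W`, every element of `W` in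
at most two of them, such that the union of any `h + 1` of them is dependent. -/
theorem block_count (M : Matroid α) [M.Finite] (D W : Finset α) (T : Finset β)
    (Wv : β → Finset α) (ends : α → Sym2 U) (N h Δ g : ℕ)
    (hWv : ∀ v ∈ T, Wv v ⊆ W)
    (htwo' : ∀ w ∈ W, ∃ a b : β, ∀ v ∈ T, w ∈ Wv v → v = a ∨ v = b)
    (hrk : ∀ J ⊆ T, h < J.card →
      rk M ((D : Set α) ∪ {w | w ∈ W ∧ ∀ v ∈ J, w ∉ Wv v}) < N)
    (hind : ∀ A ⊆ W, (∃ ψ : α → U, InjOn ψ (A : Set α) ∧ ∀ e ∈ A, ψ e ∈ ends e) →
      N ≤ rk M ((D : Set α) ∪ ((W : Set α) \ (A : Set α))))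
    (hsm : ∀ A ⊆ W, A.card ≤ g → ∃ ψ : α → U, InjOn ψ (A : Set α) ∧ ∀ e ∈ A, ψ e ∈ ends e)
    (hdeg : ∀ (u : U) (A : Finset α), A ⊆ W → (∀ e ∈ A, u ∈ ends e) → A.card ≤ Δ) :
    (g + 1) * T.card ≤ 2 * W.card + (g + 1) * (4 * g * Δ + 1) * h := by
  classical
  rcases T.eq_empty_or_nonempty with hT0 | ⟨v₀, hv₀⟩
  · simp [hT0]
  have htwo : ∀ w ∈ W, (T.filter (fun v => w ∈ Wv v)).card ≤ 2 := by
    intro w hw
    obtain ⟨a, b, hab⟩ := htwo' w hw
    refine (Finset.card_le_card (t := {a, b}) ?_).trans Finset.card_le_two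
    intro v hv
    obtain ⟨hv1, hv2⟩ := Finset.mem_filter.1 hv
    simpa using hab v hv1 hv2
  -- touching
  set tch : β → β → Prop := fun u v => ∃ w ∈ Wv u, ∃ w' ∈ Wv v, ∃ z, z ∈ ends w ∧ z ∈ ends w'
    with htch
  set T4 : Finset β := T.filter (fun v => (Wv v).card ≤ g) with hT4
  have htcard : ∀ u ∈ T4, (T4.filter (fun v => tch u v)).card ≤ 4 * g * Δ := by
    intro u hu
    have hu4 : (Wv u).card ≤ g := (Finset.mem_filter.1 hu).2
    have hsub : T4.filter (fun v => tch u v) ⊆
        (Wv u).biUnion (fun w => (ends w).toFinset.biUnion (fun z =>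
          (W.filter (fun w' => z ∈ ends w')).biUnion (fun w' => T.filter (fun v => w' ∈ Wv v)))) := by
      intro v hv
      obtain ⟨hv1, w, hw, w', hw', z, hz, hz'⟩ := Finset.mem_filter.1 hv
      have hv2 : v ∈ T := (Finset.mem_filter.1 hv1).1
      simp only [Finset.mem_biUnion, Finset.mem_filter]
      exact ⟨w, hw, z, by simpa using hz, w', ⟨hWv v hv2 hw', hz'⟩, hv2, hw'⟩
    refine (Finset.card_le_card hsub).trans ?_
    refine (Finset.card_biUnion_le_card_mul _ _ (2 * (Δ * 2)) ?_).trans ?_
    · intro w _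
      refine (Finset.card_biUnion_le_card_mul _ _ (Δ * 2) ?_).trans ?_
      · intro z _
        refine (Finset.card_biUnion_le_card_mul _ _ 2 ?_).trans ?_
        · intro w' hw'
          exact htwo w' (Finset.mem_filter.1 hw').1
        · refine Nat.mul_le_mul_right 2 (hdeg z _ (Finset.filter_subset _ _) ?_)
          intro e he
          exact (Finset.mem_filter.1 he).2
      · refine Nat.mul_le_mul_right _ ?_
        induction ends w with
        | _ a b =>
          refine (Finset.card_le_card (t := {a, b}) ?_).trans Finset.card_le_two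
          intro y hy
          simpa using hy
    · calc (Wv u).card * (2 * (Δ * 2)) ≤ g * (2 * (Δ * 2)) := Nat.mul_le_mul_right _ hu4
        _ = 4 * g * Δ := by ring
  -- a maximal family of pairwise not touching small sets
  obtain ⟨J, hJT, hJd, hJmax⟩ : ∃ J ⊆ T4, (∀ u ∈ J, ∀ v ∈ J, u ≠ v → ¬ tch u v) ∧
      ∀ v ∈ T4, v ∉ J → ∃ u ∈ J, tch u v := by
    obtain ⟨PI, hPI⟩ : ∃ PI : Finset β → Prop, ∀ J, PI J ↔
        ∀ u ∈ J, ∀ v ∈ J, u ≠ v → ¬ tch u v := ⟨_, fun _ => Iff.rfl⟩
    set Fm := T4.powerset.filter PI with hFm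
    have hne : Fm.Nonempty := ⟨∅, by simp [hFm, hPI]⟩
    obtain ⟨J, hJ, hmax⟩ := Finset.exists_max_image Fm Finset.card hne
    obtain ⟨hJ1, hJ2⟩ := Finset.mem_filter.1 hJ
    rw [hPI] at hJ2
    rw [Finset.mem_powerset] at hJ1
    refine ⟨J, hJ1, hJ2, ?_⟩
    intro v hv hvJ
    by_contra hcon
    push Not at hcon
    have hsym : ∀ u ∈ J, ¬ tch v u := by
      rintro u hu ⟨w, hw, w', hw', z, hz, hz'⟩
      exact hcon u hu ⟨w', hw', w, hw, z, hz', hz⟩
    have hin : insert v J ∈ Fm := by
      rw [hFm, Finset.mem_filter, Finset.mem_powerset]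
      refine ⟨Finset.insert_subset hv hJ1, (hPI _).2 ?_⟩
      intro a ha b hb hab
      rcases Finset.mem_insert.1 ha with ha' | ha'
      · rcases Finset.mem_insert.1 hb with hb' | hb'
        · exact absurd (ha'.trans hb'.symm) hab
        · rw [ha']; exact hsym b hb'
      · rcases Finset.mem_insert.1 hb with hb' | hb'
        · rw [hb']; exact hcon a ha'
        · exact hJ2 a ha' b hb' hab
    have := hmax _ hin
    rw [Finset.card_insert_of_notMem hvJ] at this
    omega
  have hJh : J.card ≤ h := by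
    by_contra hcon
    push Not at hcon
    have h1 := hrk J (fun v hv => (Finset.mem_filter.1 (hJT hv)).1) hcon
    set A : Finset α := J.biUnion Wv with hA
    have h2 : N ≤ rk M ((D : Set α) ∪ ((W : Set α) \ (A : Set α))) := by
      refine hind A ?_ ?_
      · intro e he
        obtain ⟨v, hv, he⟩ := Finset.mem_biUnion.1 he
        exact hWv v (Finset.mem_filter.1 (hJT hv)).1 he
      · have hch : ∀ v ∈ J, ∃ ψ : α → U, InjOn ψ (Wv v : Set α) ∧ ∀ e ∈ Wv v, ψ e ∈ ends e := by
          intro v hv
          exact hsm (Wv v) (hWv v (Finset.mem_filter.1 (hJT hv)).1)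
            (Finset.mem_filter.1 (hJT hv)).2
        rcases A.eq_empty_or_nonempty with hA0 | ⟨e₀, he₀⟩
        · rw [hA0]
          rcases isEmpty_or_nonempty α with hα | ⟨⟨a⟩⟩
          · exact ⟨fun a => hα.elim a, by simp, by simp⟩
          · exact ⟨fun _ => (ends a).out.1, by simp, by simp⟩
        have hchoose : ∀ e, ∃ v, e ∈ A → v ∈ J ∧ e ∈ Wv v := by
          intro e
          by_cases he : e ∈ A
          · obtain ⟨v, hv, hev⟩ := Finset.mem_biUnion.1 he
            exact ⟨v, fun _ => ⟨hv, hev⟩⟩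
          · exact ⟨v₀, fun h => absurd h he⟩
        have : Nonempty U := ⟨(ends e₀).out.1⟩
        choose bl hbl using hchoose
        choose! ψ hψ using hch
        refine ⟨fun e => ψ (bl e) e, ?_, ?_⟩
        · intro x hx y hy hxy
          obtain ⟨hx1, hx2⟩ := hbl x hx
          obtain ⟨hy1, hy2⟩ := hbl y hy
          have ex := (hψ (bl x) hx1).2 x hx2
          have ey := (hψ (bl y) hy1).2 y hy2
          simp only at hxy
          by_cases hb : bl x = bl y
          · rw [hb] at hxy hx2
            exact (hψ (bl y) hy1).1 hx2 hy2 hxy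
          · exact absurd ⟨x, hx2, y, hy2, _, ex, hxy ▸ ey⟩ (hJd _ hx1 _ hy1 hb)
        · intro e he
          obtain ⟨h3, h4⟩ := hbl e he
          exact (hψ (bl e) h3).2 e h4
    refine absurd h1 (not_lt.2 (h2.trans (rk_mono M (union_subset_union_right _ ?_))))
    rintro w ⟨hw, hwA⟩
    refine ⟨hw, fun v hv hcon => hwA ?_⟩
    rw [hA]
    exact Finset.mem_coe.2 (Finset.mem_biUnion.2 ⟨v, hv, hcon⟩)
  have hT4card : T4.card ≤ J.card * (4 * g * Δ + 1) := by
    have hsub : T4 ⊆ J.biUnion (fun u => insert u (T4.filter (fun v => tch u v))) := by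
      intro v hv
      rw [Finset.mem_biUnion]
      by_cases hvJ : v ∈ J
      · exact ⟨v, hvJ, Finset.mem_insert_self _ _⟩
      · obtain ⟨u, hu, huv⟩ := hJmax v hv hvJ
        exact ⟨u, hu, Finset.mem_insert_of_mem (Finset.mem_filter.2 ⟨hv, huv⟩)⟩
    refine (Finset.card_le_card hsub).trans (Finset.card_biUnion_le_card_mul _ _ _ ?_)
    intro u hu
    exact (Finset.card_insert_le _ _).trans (Nat.add_le_add_right (htcard u (hJT hu)) 1)
  have hsum : ∑ v ∈ T, (Wv v).card ≤ 2 * W.card := by
    have e1 : ∑ v ∈ T, (Wv v).card = ∑ w ∈ W, (T.filter (fun v => w ∈ Wv v)).card := by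
      have e2 : ∀ v ∈ T, (Wv v).card = ∑ w ∈ W, if w ∈ Wv v then 1 else 0 := by
        intro v hv
        rw [← Finset.card_filter]
        refine congrArg Finset.card ?_
        ext w
        simp only [Finset.mem_filter]
        exact ⟨fun h => ⟨hWv v hv h, h⟩, fun h => h.2⟩
      rw [Finset.sum_congr rfl e2, Finset.sum_comm]
      refine Finset.sum_congr rfl (fun w _ => ?_)
      rw [Finset.card_filter]
    rw [e1]
    calc ∑ w ∈ W, (T.filter (fun v => w ∈ Wv v)).card ≤ ∑ _w ∈ W, 2 := Finset.sum_le_sum htwo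
      _ = 2 * W.card := by rw [Finset.sum_const, smul_eq_mul, mul_comm]
  have hlow : (g + 1) * T.card ≤ ∑ v ∈ T, (Wv v).card + (g + 1) * T4.card := by
    have e1 : (g + 1) * T4.card = ∑ v ∈ T, (if (Wv v).card ≤ g then g + 1 else 0) := by
      rw [← Finset.sum_filter, Finset.sum_const, smul_eq_mul, mul_comm]
    rw [e1, ← Finset.sum_add_distrib]
    calc (g + 1) * T.card = ∑ _v ∈ T, (g + 1) := by
          rw [Finset.sum_const, smul_eq_mul, mul_comm]
      _ ≤ _ := by
        refine Finset.sum_le_sum (fun v _ => ?_)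
        split_ifs with h5
        · omega
        · omega
  have h6 : T4.card ≤ h * (4 * g * Δ + 1) := hT4card.trans (Nat.mul_le_mul_right _ hJh)
  have h7 : (g + 1) * (h * (4 * g * Δ + 1)) = (g + 1) * (4 * g * Δ + 1) * h := by ring
  have h8 : (g + 1) * T4.card ≤ (g + 1) * (h * (4 * g * Δ + 1)) := Nat.mul_le_mul_left _ h6
  omega

/-- at most two elements -/
lemma exists_pair_of_card_le_two [Nonempty β] (s : Finset β) (hs : s.card ≤ 2) :
    ∃ a b : β, ∀ x ∈ s, x = a ∨ x = b := by
  classical
  obtain ⟨v₀⟩ := ‹Nonempty β›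
  rcases s.eq_empty_or_nonempty with rfl | ⟨a, ha⟩
  · exact ⟨v₀, v₀, by simp⟩
  rcases (s.erase a).eq_empty_or_nonempty with h1 | ⟨b, hb⟩
  · refine ⟨a, a, fun x hx => ?_⟩
    by_contra hcon
    push Not at hcon
    have : x ∈ s.erase a := Finset.mem_erase.2 ⟨hcon.1, hx⟩
    rw [h1] at this
    simp at this
  · refine ⟨a, b, fun x hx => ?_⟩
    by_contra hcon
    push Not at hcon
    have h2 : (s.erase a).erase b = ∅ := by
      rw [← Finset.card_eq_zero, Finset.card_erase_of_mem hb, Finset.card_erase_of_mem ha]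
      omega
    have : x ∈ (s.erase a).erase b :=
      Finset.mem_erase.2 ⟨hcon.2, Finset.mem_erase.2 ⟨hcon.1, hx⟩⟩
    rw [h2] at this
    simp at this

open Classical in
/-- The part of the locations which belongs to a set `J` of blocks: the locations in these blocks
and all pockets with an attachment in one of these blocks. -/
noncomputable def pkK [Fintype V] (pk : V → Option ι) (at' : ι → Finset V) (f : V → V)
    (J : Finset V) : Finset V :=
  Finset.univ.filter (fun x => (pk x = none ∧ f x ∈ J) ∨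
    ∃ i, pk x = some i ∧ ∃ y ∈ at' i, f y ∈ J)

lemma mem_pkK [Fintype V] {pk : V → Option ι} {at' : ι → Finset V} {f : V → V}
    {J : Finset V} {x : V} : x ∈ pkK pk at' f J ↔ (pk x = none ∧ f x ∈ J) ∨
    ∃ i, pk x = some i ∧ ∃ y ∈ at' i, f y ∈ J := by
  classical
  simp [pkK]

open Classical in
/-- Blocks in the presence of pockets. -/
theorem pocket_blocks [Fintype V] [Nonempty V] [Fintype ι] (D : Finset α) (S : α → Finset V)
    (pk : V → Option ι) (at' : ι → Finset V) (hat : ∀ i, (at' i).card ≤ 2)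
    (hatp : ∀ i, ∀ x ∈ at' i, pk x = none)
    (hS : ∀ d ∈ D, ((∀ x ∈ S d, pk x = none) ∧ (S d).card ≤ 2) ∨
      ∃ i, ∀ x ∈ S d, pk x = some i ∨ x ∈ at' i) :
    ∃ (T : Finset V) (f : V → V),
      Fintype.card V ≤ D.card + T.card +
        ∑ i, ((Finset.univ.filter (fun x => pk x = some i)).card -
          (D.filter (fun d => ∃ x ∈ S d, pk x = some i)).card) ∧
      ∀ J ⊆ T, (D.filter (fun d => ∃ x ∈ S d, x ∈ pkK pk at' f J)).card + J.card ≤
        (pkK pk at' f J).card := by
  set O : Finset V := Finset.univ.filter (fun x => pk x = none) with hO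
  set Di : ι → Finset α := fun i => D.filter (fun d => ∃ x ∈ S d, pk x = some i) with hDi
  set Ji : ι → Finset V := fun i => Finset.univ.filter (fun x => pk x = some i) with hJi
  set vi : ι → ℕ := fun i => (Di i).card - (Ji i).card with hvi
  set Do : Finset α := D.filter (fun d => ∀ x ∈ S d, pk x = none) with hDo
  set D' : Finset (α ⊕ (Σ _ : ι, ℕ)) :=
    Do.disjSum ((Finset.univ : Finset ι).sigma (fun i => Finset.range (vi i))) with hD'
  set H' : V → Set (α ⊕ (Σ _ : ι, ℕ)) := fun x =>
    {e | Sum.elim (fun d => x ∉ S d) (fun p => x ∉ at' p.1) e} with hH'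
  have hHl : ∀ x d, (Sum.inl d : α ⊕ (Σ _ : ι, ℕ)) ∉ H' x ↔ x ∈ S d := by
    intro x d
    simp [hH']
  have hHr : ∀ x p, (Sum.inr p : α ⊕ (Σ _ : ι, ℕ)) ∉ H' x ↔ x ∈ at' p.1 := by
    intro x p
    simp [hH']
  -- the pocket of an element
  have hpk : ∀ d ∈ D, ∀ i, (∃ x ∈ S d, pk x = some i) → ∀ x ∈ S d, pk x = some i ∨ x ∈ at' i := by
    rintro d hd i ⟨y, hy, hyi⟩
    rcases hS d hd with ⟨h1, _⟩ | ⟨j, hj⟩
    · rw [h1 y hy] at hyi
      exact absurd hyi (by simp)
    · have : j = i := by
        rcases hj y hy with h | h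
        · rw [h] at hyi
          exact Option.some.inj hyi
        · rw [hatp j y h] at hyi
          exact absurd hyi (by simp)
      rw [← this]
      exact hj
  have hord : ∀ d ∈ Do, (S d).card ≤ 2 := by
    intro d hd
    obtain ⟨hd1, hd2⟩ := Finset.mem_filter.1 hd
    rcases hS d hd1 with ⟨_, h⟩ | ⟨i, hi⟩
    · exact h
    · refine (Finset.card_le_card (fun x hx => ?_)).trans (hat i)
      rcases hi x hx with h | h
      · rw [hd2 x hx] at h
        exact absurd h (by simp)
      · exact h
  obtain ⟨f, hf, hcard⟩ := exists_blocks H' O D' (by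
    intro e he
    rcases e with d | p
    · have hd : d ∈ Do := by simpa [hD'] using he
      obtain ⟨a, b, hab⟩ := exists_pair_of_card_le_two (S d) (hord d hd)
      exact ⟨a, b, fun x _ hx => hab x ((hHl x d).1 hx)⟩
    · obtain ⟨a, b, hab⟩ := exists_pair_of_card_le_two (at' p.1) (hat p.1)
      exact ⟨a, b, fun x _ hx => hab x ((hHr x p).1 hx)⟩)
  have hD'card : D'.card = Do.card + ∑ i, vi i := by
    rw [hD', Finset.card_disjSum, Finset.card_sigma]
    simp
  obtain ⟨T, hT, hcard'⟩ : ∃ T : Finset V, (∀ v ∈ T,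
      (D'.filter (fun d => ∃ x ∈ O, f x = v ∧ d ∉ H' x)).card <
        (O.filter (fun x => f x = v)).card) ∧ O.card ≤ D'.card + T.card :=
    ⟨_, fun v hv => (Finset.mem_filter.1 hv).2, hcard⟩
  clear hcard
  refine ⟨T, f, ?_, ?_⟩
  · -- the number of blocks
    have e1 : Fintype.card V = O.card + ∑ i, (Ji i).card := by
      rw [← Finset.card_univ, Finset.card_eq_sum_card_fiberwise (f := pk) (t := Finset.univ)
        (fun x _ => Finset.mem_coe.2 (Finset.mem_univ _)), Fintype.sum_option]
    have e2 : Do.card + ∑ i, (Di i).card ≤ D.card := by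
      rw [← Finset.card_biUnion, ← Finset.card_union_of_disjoint]
      · refine Finset.card_le_card ?_
        intro d hd
        rcases Finset.mem_union.1 hd with hd | hd
        · exact (Finset.mem_filter.1 hd).1
        · obtain ⟨i, _, hd⟩ := Finset.mem_biUnion.1 hd
          exact (Finset.mem_filter.1 hd).1
      · rw [Finset.disjoint_left]
        intro d hd hd'
        obtain ⟨i, _, hd'⟩ := Finset.mem_biUnion.1 hd'
        obtain ⟨x, hx, hxi⟩ := (Finset.mem_filter.1 hd').2
        rw [(Finset.mem_filter.1 hd).2 x hx] at hxi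
        exact absurd hxi (by simp)
      · intro i _ j _ hij
        show Disjoint _ _
        rw [Finset.disjoint_left]
        intro d hd hd'
        obtain ⟨x, hx, hxj⟩ := (Finset.mem_filter.1 hd').2
        rcases hpk d (Finset.mem_filter.1 hd).1 i (Finset.mem_filter.1 hd).2 x hx with h | h
        · rw [h] at hxj
          exact hij (Option.some.inj hxj)
        · rw [hatp i x h] at hxj
          exact absurd hxj (by simp)
    have e3 : ∑ i, vi i + ∑ i, (Ji i).card ≤
        ∑ i, (Di i).card + ∑ i, ((Ji i).card - (Di i).card) := by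
      rw [← Finset.sum_add_distrib, ← Finset.sum_add_distrib]
      refine Finset.sum_le_sum (fun i _ => ?_)
      simp only [hvi]
      omega
    show Fintype.card V ≤ D.card + T.card + ∑ i, ((Ji i).card - (Di i).card)
    omega
  · intro J hJ
    set IJ : Finset ι := Finset.univ.filter (fun i => ∃ y ∈ at' i, f y ∈ J) with hIJ
    set A : Finset α := Do.filter (fun d => ∃ x ∈ S d, f x ∈ J) with hA
    have k1 : (O.filter (fun x => f x ∈ J)).card + ∑ i ∈ IJ, (Ji i).card ≤
        (pkK pk at' f J).card := by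
      rw [← Finset.card_biUnion, ← Finset.card_union_of_disjoint]
      · refine Finset.card_le_card ?_
        intro x hx
        rw [mem_pkK]
        rcases Finset.mem_union.1 hx with hx | hx
        · obtain ⟨h1, h2⟩ := Finset.mem_filter.1 hx
          exact Or.inl ⟨(Finset.mem_filter.1 h1).2, h2⟩
        · obtain ⟨i, hi, hx⟩ := Finset.mem_biUnion.1 hx
          exact Or.inr ⟨i, (Finset.mem_filter.1 hx).2, (Finset.mem_filter.1 hi).2⟩
      · rw [Finset.disjoint_left]
        intro x hx hx'
        obtain ⟨i, hi, hx'⟩ := Finset.mem_biUnion.1 hx'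
        have h1 := (Finset.mem_filter.1 hx').2
        have h2 := (Finset.mem_filter.1 (Finset.mem_filter.1 hx).1).2
        rw [h2] at h1
        exact absurd h1 (by simp)
      · intro i _ j _ hij
        show Disjoint _ _
        rw [Finset.disjoint_left]
        intro x hx hx'
        have h1 := (Finset.mem_filter.1 hx).2
        have h2 := (Finset.mem_filter.1 hx').2
        rw [h1] at h2
        exact hij (Option.some.inj h2)
    have k2 : (O.filter (fun x => f x ∈ J)).card = ∑ v ∈ J, (O.filter (fun x => f x = v)).card := by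
      rw [← Finset.card_biUnion]
      · refine congrArg Finset.card ?_
        ext x
        simp only [Finset.mem_filter, Finset.mem_biUnion]
        constructor
        · rintro ⟨h1, h2⟩
          exact ⟨f x, h2, h1, rfl⟩
        · rintro ⟨v, hv, h1, h2⟩
          exact ⟨h1, h2 ▸ hv⟩
      · intro v _ w _ hvw
        show Disjoint _ _
        rw [Finset.disjoint_left]
        intro x hx hx'
        exact hvw ((Finset.mem_filter.1 hx).2.symm.trans (Finset.mem_filter.1 hx').2)
    have k3 : ∑ v ∈ J, (D'.filter (fun d => ∃ x ∈ O, f x = v ∧ d ∉ H' x)).card + J.card ≤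
        ∑ v ∈ J, (O.filter (fun x => f x = v)).card := by
      rw [Finset.card_eq_sum_ones, ← Finset.sum_add_distrib]
      refine Finset.sum_le_sum (fun v hv => ?_)
      exact hT v (hJ hv)
    have k4 : A.card + ∑ i ∈ IJ, vi i ≤
        ∑ v ∈ J, (D'.filter (fun d => ∃ x ∈ O, f x = v ∧ d ∉ H' x)).card := by
      have h1 : A.card + ∑ i ∈ IJ, vi i =
          (A.disjSum (IJ.sigma (fun i => Finset.range (vi i)))).card := by
        rw [Finset.card_disjSum, Finset.card_sigma]
        simp
      rw [h1]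
      refine (Finset.card_le_card (t := J.biUnion (fun v =>
        D'.filter (fun d => ∃ x ∈ O, f x = v ∧ d ∉ H' x))) ?_).trans Finset.card_biUnion_le
      intro e he
      rw [Finset.mem_biUnion]
      rcases e with d | p
      · have hd : d ∈ A := by simpa using he
        obtain ⟨hd1, x, hx, hxJ⟩ := Finset.mem_filter.1 hd
        refine ⟨f x, hxJ, Finset.mem_filter.2 ⟨by simpa [hD'] using hd1, x, ?_, rfl,
          (hHl x d).2 hx⟩⟩
        exact Finset.mem_filter.2 ⟨Finset.mem_univ _, (Finset.mem_filter.1 hd1).2 x hx⟩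
      · have hp : p.1 ∈ IJ ∧ p.2 < vi p.1 := by simpa using he
        obtain ⟨y, hy, hyJ⟩ := (Finset.mem_filter.1 hp.1).2
        refine ⟨f y, hyJ, Finset.mem_filter.2 ⟨by simpa [hD'] using hp.2, y, ?_, rfl,
          (hHr y p).2 hy⟩⟩
        exact Finset.mem_filter.2 ⟨Finset.mem_univ _, hatp _ y hy⟩
    have k5 : (D.filter (fun d => ∃ x ∈ S d, x ∈ pkK pk at' f J)).card ≤
        A.card + ∑ i ∈ IJ, (Di i).card := by
      refine (Finset.card_le_card (t := A ∪ IJ.biUnion Di) ?_).trans
        ((Finset.card_union_le _ _).trans (Nat.add_le_add_left Finset.card_biUnion_le _))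
      intro d hd
      obtain ⟨hdD, x, hx, hxK⟩ := Finset.mem_filter.1 hd
      rw [Finset.mem_union, Finset.mem_biUnion]
      rw [mem_pkK] at hxK
      rcases hxK with ⟨hx1, hx2⟩ | ⟨i, hxi, y, hy, hyJ⟩
      · by_cases hdo : ∀ x ∈ S d, pk x = none
        · exact Or.inl (Finset.mem_filter.2 ⟨Finset.mem_filter.2 ⟨hdD, hdo⟩, x, hx, hx2⟩)
        · push Not at hdo
          obtain ⟨y, hy, hyn⟩ := hdo
          obtain ⟨i, hi⟩ := Option.ne_none_iff_exists'.1 hyn
          refine Or.inr ⟨i, ?_, Finset.mem_filter.2 ⟨hdD, y, hy, hi⟩⟩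
          refine Finset.mem_filter.2 ⟨Finset.mem_univ _, x, ?_, hx2⟩
          rcases hpk d hdD i ⟨y, hy, hi⟩ x hx with h | h
          · rw [hx1] at h
            exact absurd h (by simp)
          · exact h
      · exact Or.inr ⟨i, Finset.mem_filter.2 ⟨Finset.mem_univ _, y, hy, hyJ⟩,
          Finset.mem_filter.2 ⟨hdD, x, hx, hxi⟩⟩
    have k6 : ∑ i ∈ IJ, (Di i).card ≤ ∑ i ∈ IJ, vi i + ∑ i ∈ IJ, (Ji i).card := by
      rw [← Finset.sum_add_distrib]
      refine Finset.sum_le_sum (fun i _ => ?_)
      simp only [hvi]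
      omega
    omega

/-- the rank inequality of the robust count for an arbitrary set `K` of locations -/
lemma rk_locations_le [Fintype V] (M : Matroid α) [M.Finite] (D W : Finset α)
    (S : α → Finset V) (h : ℕ)
    (hr : ∀ K : Finset V, rk M {e | (e ∈ D ∨ e ∈ W) ∧ ∀ x ∈ K, x ∉ S e} + K.card ≤
      Fintype.card V + h) (K : Finset V) (DK : Finset α)
    (hDK : ∀ d ∈ D, (∃ x ∈ S d, x ∈ K) → d ∈ DK) :
    rk M ((D : Set α) ∪ {w | w ∈ W ∧ ∀ x ∈ K, x ∉ S w}) + K.card ≤
      Fintype.card V + h + DK.card := by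
  have h1 : (D : Set α) ∪ {w | w ∈ W ∧ ∀ x ∈ K, x ∉ S w} ⊆
      {e | (e ∈ D ∨ e ∈ W) ∧ ∀ x ∈ K, x ∉ S e} ∪ (DK : Set α) := by
    rintro e (he | ⟨he, heK⟩)
    · by_cases hx : ∃ x ∈ S e, x ∈ K
      · exact Or.inr (Finset.mem_coe.2 (hDK e (Finset.mem_coe.1 he) hx))
      · push Not at hx
        exact Or.inl ⟨Or.inl (Finset.mem_coe.1 he), fun x hxK hxS => hx x hxS hxK⟩
    · exact Or.inl ⟨Or.inr he, heK⟩
  have h2 := rk_mono M h1
  have h3 := rk_union_le M (X := {e | (e ∈ D ∨ e ∈ W) ∧ ∀ x ∈ K, x ∉ S e})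
    (Y := (DK : Set α)) DK.finite_toSet
  rw [ncard_coe_finset] at h3
  have h4 := hr K
  omega

open Classical in
/-- A weighted family with few conflicts: if every conflict free subfamily has weight at most `h`
and every member has at most `m` conflicts, then the whole weight is at most `(m + 1) h`. -/
lemma sum_le_of_conflicts (I : Finset ι) (c : ι → ι → Prop) (hsym : ∀ i j, c i j → c j i)
    (u : ι → ℕ) (m h : ℕ) (hm : ∀ i ∈ I, (I.filter (fun j => c i j)).card ≤ m)
    (hu : ∀ J ⊆ I, (∀ i ∈ J, ∀ j ∈ J, i ≠ j → ¬ c i j) → ∑ i ∈ J, u i ≤ h) :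
    ∑ i ∈ I, u i ≤ (m + 1) * h := by
  -- a colouring with `m + 1` colours
  have key : ∀ J ⊆ I, ∃ col : ι → Fin (m + 1), ∀ i ∈ J, ∀ j ∈ J, i ≠ j → c i j →
      col i ≠ col j := by
    intro J
    induction J using Finset.induction_on with
    | empty => exact fun _ => ⟨fun _ => 0, by simp⟩
    | insert a J ha ih =>
      intro hJ
      obtain ⟨col, hcol⟩ := ih (fun x hx => hJ (Finset.mem_insert_of_mem hx))
      obtain ⟨k, hk⟩ : ∃ k : Fin (m + 1), k ∉ (I.filter (fun j => c a j)).image col := by
        by_contra hcon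
        push Not at hcon
        have h1 : (Finset.univ : Finset (Fin (m + 1))) ⊆ (I.filter (fun j => c a j)).image col :=
          fun k _ => hcon k
        have h2 := (Finset.card_le_card h1).trans Finset.card_image_le
        rw [Finset.card_univ, Fintype.card_fin] at h2
        have h3 := hm a (hJ (Finset.mem_insert_self _ _))
        omega
      refine ⟨fun i => if i = a then k else col i, ?_⟩
      have hkc : ∀ j ∈ J, c a j → k ≠ col j := by
        rintro j hj hc rfl
        exact hk (Finset.mem_image.2 ⟨j, Finset.mem_filter.2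
          ⟨hJ (Finset.mem_insert_of_mem hj), hc⟩, rfl⟩)
      intro i hi j hj hij hc
      rcases Finset.mem_insert.1 hi with hi | hi
      · rcases Finset.mem_insert.1 hj with hj | hj
        · exact absurd (hi.trans hj.symm) hij
        · have hja : j ≠ a := fun h => ha (h ▸ hj)
          simp only [hi, if_true, if_neg hja]
          exact hkc j hj (hi ▸ hc)
      · have hia : i ≠ a := fun h => ha (h ▸ hi)
        rcases Finset.mem_insert.1 hj with hj | hj
        · simp only [hj, if_true, if_neg hia]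
          exact (hkc i hi (hj ▸ hsym _ _ hc)).symm
        · have hja : j ≠ a := fun h => ha (h ▸ hj)
          simp only [if_neg hia, if_neg hja]
          exact hcol i hi j hj hij hc
  obtain ⟨col, hcol⟩ := key I (Finset.Subset.refl _)
  have h1 : ∑ i ∈ I, u i = ∑ k : Fin (m + 1), ∑ i ∈ I.filter (fun i => col i = k), u i :=
    (Finset.sum_fiberwise I col u).symm
  rw [h1]
  calc ∑ k : Fin (m + 1), ∑ i ∈ I.filter (fun i => col i = k), u i
      ≤ ∑ _k : Fin (m + 1), h := by
        refine Finset.sum_le_sum (fun k _ => hu _ (Finset.filter_subset _ _) ?_)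
        intro i hi j hj hij hc
        obtain ⟨hi1, hi2⟩ := Finset.mem_filter.1 hi
        obtain ⟨hj1, hj2⟩ := Finset.mem_filter.1 hj
        exact hcol i hi1 j hj1 hij hc (hi2.trans hj2.symm)
    _ = (m + 1) * h := by simp

open Classical in
/-- **RCNT with pockets.**  `pk x = some i` means that the location `x` belongs to the pocket `i`,
and `at' i` is the set of its attachments. -/
theorem rcnt_pockets [Fintype V] [Fintype ι] (M : Matroid α) [M.Finite] (D W : Finset α)
    (S : α → Finset V) (pk : V → Option ι) (at' : ι → Finset V) (hat : ∀ i, (at' i).card ≤ 2)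
    (hatp : ∀ i, ∀ x ∈ at' i, pk x = none)
    (ends : α → Sym2 U) (h Δ g n₀ : ℕ)
    (hr : ∀ K : Finset V, rk M {e | (e ∈ D ∨ e ∈ W) ∧ ∀ x ∈ K, x ∉ S e} + K.card ≤
      Fintype.card V + h)
    (hS : ∀ e, e ∈ D ∨ e ∈ W → ((∀ x ∈ S e, pk x = none) ∧ (S e).card ≤ 2) ∨
      ∃ i, ∀ x ∈ S e, pk x = some i ∨ x ∈ at' i)
    (hind : ∀ A ⊆ W, (∃ ψ : α → U, InjOn ψ (A : Set α) ∧ ∀ e ∈ A, ψ e ∈ ends e) →
      Fintype.card V ≤ rk M ((D : Set α) ∪ ((W : Set α) \ (A : Set α))))
    (hsm : ∀ A ⊆ W, A.card ≤ g → ∃ ψ : α → U, InjOn ψ (A : Set α) ∧ ∀ e ∈ A, ψ e ∈ ends e)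
    (hdeg : ∀ (u : U) (A : Finset α), A ⊆ W → (∀ e ∈ A, u ∈ ends e) → A.card ≤ Δ)
    (hW : ∀ i, (W.filter (fun w => ∃ x ∈ S w, pk x = some i)).card ≤ n₀ ∧
      ∃ ψ : α → U, InjOn ψ (W.filter (fun w => ∃ x ∈ S w, pk x = some i) : Set α) ∧
        ∀ e ∈ W.filter (fun w => ∃ x ∈ S w, pk x = some i), ψ e ∈ ends e) :
    (g + 1) * Fintype.card V ≤ (g + 1) * D.card + 2 * W.card +
      (g + 1) * (4 * g * Δ + 1) * h + (g + 1) * (2 * n₀ * Δ + 1) * h := by
  rcases isEmpty_or_nonempty V with hV | hV
  · simp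
  obtain ⟨T, f, hT, hJT⟩ := pocket_blocks D S pk at' hat hatp (fun d hd => hS d (Or.inl hd))
  set Wi : ι → Finset α := fun i => W.filter (fun w => ∃ x ∈ S w, pk x = some i) with hWi
  set Di : ι → Finset α := fun i => D.filter (fun d => ∃ x ∈ S d, pk x = some i) with hDi
  set Ji : ι → Finset V := fun i => Finset.univ.filter (fun x => pk x = some i) with hJi
  have hpk : ∀ d, d ∈ D ∨ d ∈ W → ∀ i, (∃ x ∈ S d, pk x = some i) →
      ∀ x ∈ S d, pk x = some i ∨ x ∈ at' i := by
    rintro d hd i ⟨y, hy, hyi⟩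
    rcases hS d hd with ⟨h1, _⟩ | ⟨j, hj⟩
    · rw [h1 y hy] at hyi
      exact absurd hyi (by simp)
    · have : j = i := by
        rcases hj y hy with h | h
        · rw [h] at hyi
          exact Option.some.inj hyi
        · rw [hatp j y h] at hyi
          exact absurd hyi (by simp)
      rw [← this]
      exact hj
  have huniq : ∀ d, d ∈ D ∨ d ∈ W → ∀ i j, (∃ x ∈ S d, pk x = some i) →
      (∃ x ∈ S d, pk x = some j) → i = j := by
    rintro d hd i j hi ⟨y, hy, hyj⟩
    rcases hpk d hd i hi y hy with h | h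
    · rw [h] at hyj
      exact Option.some.inj hyj
    · rw [hatp i y h] at hyj
      exact absurd hyj (by simp)
  -- the blocks
  have h1 : (g + 1) * T.card ≤ 2 * W.card + (g + 1) * (4 * g * Δ + 1) * h := by
    refine block_count M D W T
      (fun v => W.filter (fun w => ∃ x ∈ S w, x ∈ pkK pk at' f {v})) ends (Fintype.card V) h Δ g
      (fun v _ => Finset.filter_subset _ _) ?_ ?_ hind hsm hdeg
    · intro w hw
      -- the blocks which see `w`
      obtain ⟨Y, hY, hYw⟩ : ∃ Y : Finset V, Y.card ≤ 2 ∧ ∀ v,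
          (∃ x ∈ S w, x ∈ pkK pk at' f {v}) → ∃ y ∈ Y, v = f y := by
        by_cases hwo : ∀ x ∈ S w, pk x = none
        · have hc : (S w).card ≤ 2 := by
            rcases hS w (Or.inr hw) with ⟨_, h⟩ | ⟨i, hi⟩
            · exact h
            · refine (Finset.card_le_card (fun x hx => ?_)).trans (hat i)
              rcases hi x hx with h | h
              · rw [hwo x hx] at h
                exact absurd h (by simp)
              · exact h
          refine ⟨S w, hc, ?_⟩
          rintro v ⟨x, hx, hxv⟩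
          rw [mem_pkK] at hxv
          rcases hxv with ⟨_, h⟩ | ⟨i, h, _⟩
          · exact ⟨x, hx, (Finset.mem_singleton.1 h).symm⟩
          · rw [hwo x hx] at h
            exact absurd h (by simp)
        · push Not at hwo
          obtain ⟨y, hy, hyn⟩ := hwo
          obtain ⟨i, hi⟩ := Option.ne_none_iff_exists'.1 hyn
          refine ⟨at' i, hat i, ?_⟩
          rintro v ⟨x, hx, hxv⟩
          rw [mem_pkK] at hxv
          rcases hxv with ⟨hxn, h⟩ | ⟨j, hj, z, hz, hzv⟩
          · refine ⟨x, ?_, (Finset.mem_singleton.1 h).symm⟩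
            rcases hpk w (Or.inr hw) i ⟨y, hy, hi⟩ x hx with h' | h'
            · rw [hxn] at h'
              exact absurd h' (by simp)
            · exact h'
          · have hij : i = j := huniq w (Or.inr hw) i j ⟨y, hy, hi⟩ ⟨x, hx, hj⟩
            subst hij
            exact ⟨z, hz, (Finset.mem_singleton.1 hzv).symm⟩
      obtain ⟨a, b, hab⟩ := exists_pair_of_card_le_two Y hY
      refine ⟨f a, f b, fun v _ hv => ?_⟩
      obtain ⟨y, hy, rfl⟩ := hYw v (Finset.mem_filter.1 hv).2
      rcases hab y hy with h | h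
      · exact Or.inl (by rw [h])
      · exact Or.inr (by rw [h])
    · intro J hJ hhJ
      have h2 := rk_locations_le M D W S h hr (pkK pk at' f J)
        (D.filter (fun d => ∃ x ∈ S d, x ∈ pkK pk at' f J))
        (fun d hd hx => Finset.mem_filter.2 ⟨hd, hx⟩)
      have h3 := hJT J hJ
      have h4 : (D : Set α) ∪ {w | w ∈ W ∧ ∀ v ∈ J,
          w ∉ W.filter (fun w => ∃ x ∈ S w, x ∈ pkK pk at' f {v})} ⊆
          (D : Set α) ∪ {w | w ∈ W ∧ ∀ x ∈ pkK pk at' f J, x ∉ S w} := by
        refine union_subset_union_right _ ?_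
        rintro w ⟨hw, hwJ⟩
        refine ⟨hw, fun x hx hxw => ?_⟩
        rw [mem_pkK] at hx
        rcases hx with ⟨hx1, hx2⟩ | ⟨i, hi, y, hy, hyJ⟩
        · refine hwJ (f x) hx2 (Finset.mem_filter.2 ⟨hw, x, hxw, ?_⟩)
          rw [mem_pkK]
          exact Or.inl ⟨hx1, Finset.mem_singleton_self _⟩
        · refine hwJ (f y) hyJ (Finset.mem_filter.2 ⟨hw, x, hxw, ?_⟩)
          rw [mem_pkK]
          exact Or.inr ⟨i, hi, y, hy, Finset.mem_singleton_self _⟩
      have h5 := rk_mono M h4
      omega
  -- the loss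
  have h2 : ∑ i, ((Ji i).card - (Di i).card) ≤ (2 * n₀ * Δ + 1) * h := by
    obtain ⟨cf, hcf⟩ : ∃ cf : ι → ι → Prop, ∀ i j, cf i j ↔
        ∃ w ∈ Wi i, ∃ w' ∈ Wi j, ∃ z, z ∈ ends w ∧ z ∈ ends w' := ⟨_, fun _ _ => Iff.rfl⟩
    refine sum_le_of_conflicts Finset.univ cf ?_ _ _ _ ?_ ?_
    · intro i j hij
      rw [hcf] at hij
      obtain ⟨w, hw, w', hw', z, hz, hz'⟩ := hij
      rw [hcf]
      exact ⟨w', hw', w, hw, z, hz', hz⟩
    · intro i _
      have hsub : Finset.univ.filter (fun j => cf i j) ⊆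
          (Wi i).biUnion (fun w => (ends w).toFinset.biUnion (fun z =>
            (W.filter (fun w' => z ∈ ends w')).biUnion (fun w' =>
              Finset.univ.filter (fun j => w' ∈ Wi j)))) := by
        intro j hj
        obtain ⟨w, hw, w', hw', z, hz, hz'⟩ := (hcf i j).1 (Finset.mem_filter.1 hj).2
        simp only [Finset.mem_biUnion, Finset.mem_filter]
        exact ⟨w, hw, z, by simpa using hz, w', ⟨(Finset.mem_filter.1 hw').1, hz'⟩,
          Finset.mem_univ _, hw'⟩
      refine (Finset.card_le_card hsub).trans ?_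
      refine (Finset.card_biUnion_le_card_mul _ _ (2 * (Δ * 1)) ?_).trans ?_
      · intro w _
        refine (Finset.card_biUnion_le_card_mul _ _ (Δ * 1) ?_).trans ?_
        · intro z _
          refine (Finset.card_biUnion_le_card_mul _ _ 1 ?_).trans ?_
          · intro w' hw'
            refine Finset.card_le_one.2 (fun i hi j hj => ?_)
            exact huniq w' (Or.inr (Finset.mem_filter.1 hw').1) i j
              (Finset.mem_filter.1 (Finset.mem_filter.1 hi).2).2
              (Finset.mem_filter.1 (Finset.mem_filter.1 hj).2).2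
          · refine Nat.mul_le_mul_right 1 (hdeg z _ (Finset.filter_subset _ _) ?_)
            intro e he
            exact (Finset.mem_filter.1 he).2
        · refine Nat.mul_le_mul_right _ ?_
          induction ends w with
          | _ a b =>
            refine (Finset.card_le_card (t := {a, b}) ?_).trans Finset.card_le_two
            intro y hy
            simpa using hy
      · calc (Wi i).card * (2 * (Δ * 1)) ≤ n₀ * (2 * (Δ * 1)) :=
              Nat.mul_le_mul_right _ (hW i).1
          _ = 2 * n₀ * Δ := by ring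
    · intro J _ hJ
      -- only the pockets with a positive contribution
      set J' := J.filter (fun i => (Di i).card ≤ (Ji i).card) with hJ'
      have e0 : ∑ i ∈ J, ((Ji i).card - (Di i).card) = ∑ i ∈ J', ((Ji i).card - (Di i).card) := by
        rw [hJ', Finset.sum_filter]
        refine Finset.sum_congr rfl (fun i _ => ?_)
        split_ifs with h3
        · rfl
        · omega
      rw [e0]
      have h3 := rk_locations_le M D W S h hr (J'.biUnion Ji) (J'.biUnion Di) (by
        rintro d hd ⟨x, hx, hxK⟩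
        obtain ⟨i, hi, hxi⟩ := Finset.mem_biUnion.1 hxK
        exact Finset.mem_biUnion.2 ⟨i, hi, Finset.mem_filter.2 ⟨hd, x, hx,
          (Finset.mem_filter.1 hxi).2⟩⟩)
      have e1 : (J'.biUnion Ji).card = ∑ i ∈ J', (Ji i).card := by
        refine Finset.card_biUnion ?_
        intro i _ j _ hij
        show Disjoint _ _
        rw [Finset.disjoint_left]
        intro x hx hx'
        have h1 := (Finset.mem_filter.1 hx).2
        have h2 := (Finset.mem_filter.1 hx').2
        rw [h1] at h2
        exact hij (Option.some.inj h2)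
      have e2 : (J'.biUnion Di).card ≤ ∑ i ∈ J', (Di i).card := Finset.card_biUnion_le
      have e3 : ∑ i ∈ J', ((Ji i).card - (Di i).card) + ∑ i ∈ J', (Di i).card =
          ∑ i ∈ J', (Ji i).card := by
        rw [← Finset.sum_add_distrib]
        refine Finset.sum_congr rfl (fun i hi => ?_)
        exact Nat.sub_add_cancel (Finset.mem_filter.1 hi).2
      set A : Finset α := J'.biUnion Wi with hA
      have h4 : Fintype.card V ≤ rk M ((D : Set α) ∪ ((W : Set α) \ (A : Set α))) := by
        refine hind A ?_ ?_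
        · intro e he
          obtain ⟨i, _, he⟩ := Finset.mem_biUnion.1 he
          exact (Finset.mem_filter.1 he).1
        · rcases A.eq_empty_or_nonempty with hA0 | ⟨e₀, he₀⟩
          · rw [hA0]
            rcases isEmpty_or_nonempty α with hα | ⟨⟨a⟩⟩
            · exact ⟨fun a => hα.elim a, by simp, by simp⟩
            · exact ⟨fun _ => (ends a).out.1, by simp, by simp⟩
          obtain ⟨i₀, _, _⟩ := Finset.mem_biUnion.1 he₀
          have hchoose : ∀ e, ∃ i, e ∈ A → i ∈ J' ∧ e ∈ Wi i := by
            intro e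
            by_cases he : e ∈ A
            · obtain ⟨v, hv, hev⟩ := Finset.mem_biUnion.1 he
              exact ⟨v, fun _ => ⟨hv, hev⟩⟩
            · exact ⟨i₀, fun h => absurd h he⟩
          choose bl hbl using hchoose
          choose ψ hψ using fun i => (hW i).2
          refine ⟨fun e => ψ (bl e) e, ?_, ?_⟩
          · intro x hx y hy hxy
            obtain ⟨hx1, hx2⟩ := hbl x hx
            obtain ⟨hy1, hy2⟩ := hbl y hy
            have ex := (hψ (bl x)).2 x hx2
            have ey := (hψ (bl y)).2 y hy2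
            simp only at hxy
            by_cases hb : bl x = bl y
            · rw [hb] at hxy hx2
              exact (hψ (bl y)).1 (Finset.mem_coe.2 hx2) (Finset.mem_coe.2 hy2) hxy
            · exact absurd ((hcf _ _).2 ⟨x, hx2, y, hy2, _, ex, hxy ▸ ey⟩)
                (hJ _ (Finset.mem_filter.1 hx1).1 _ (Finset.mem_filter.1 hy1).1 hb)
          · intro e he
            obtain ⟨_, h4⟩ := hbl e he
            exact (hψ (bl e)).2 e h4
      have h5 : (D : Set α) ∪ ((W : Set α) \ (A : Set α)) ⊆
          (D : Set α) ∪ {w | w ∈ W ∧ ∀ x ∈ J'.biUnion Ji, x ∉ S w} := by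
        refine union_subset_union_right _ ?_
        rintro w ⟨hw, hwA⟩
        refine ⟨Finset.mem_coe.1 hw, fun x hx hxw => hwA ?_⟩
        obtain ⟨i, hi, hxi⟩ := Finset.mem_biUnion.1 hx
        exact Finset.mem_coe.2 (Finset.mem_biUnion.2 ⟨i, hi, Finset.mem_filter.2
          ⟨Finset.mem_coe.1 hw, x, hxw, (Finset.mem_filter.1 hxi).2⟩⟩)
      have h6 := rk_mono M h5
      omega
  have hT' : Fintype.card V ≤ D.card + T.card + (2 * n₀ * Δ + 1) * h := by
    have hT2 : Fintype.card V ≤ D.card + T.card + ∑ i, ((Ji i).card - (Di i).card) := hT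
    omega
  have h3 : (g + 1) * Fintype.card V ≤ (g + 1) * (D.card + T.card + (2 * n₀ * Δ + 1) * h) :=
    Nat.mul_le_mul_left _ hT'
  have h4 : (g + 1) * (D.card + T.card + (2 * n₀ * Δ + 1) * h) =
      (g + 1) * D.card + (g + 1) * T.card + (g + 1) * (2 * n₀ * Δ + 1) * h := by ring
  omega

end BIC.Cnt
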