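import Pool.Agent.Helper82.G.Pockets
import Pool.Agent.Helper63.G.RcntGrid

/-!
# The robust counting lemma with pockets for cobicircular grids
-/

open Set BIC BICS
open scoped Matroid

namespace BIC.Cnt

variable {α V ι : Type*}

open Classical in
/-- **RCNT with pockets for grids.**  Let `D` be independent in `M`, let `N = (M / D) | W` be
cobicircular for the plain `n × n` grid, and let `V` be a set of `rk (D ∪ W)` locations with sets
`F U`, `U ⊆ V`, of rank at most `|U|`; `pk x = some i` means that `x` is in the pocket `i`, and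
`at' i` (at most two elements, in no pocket) are its attachments.  Suppose that every element of
`D ∪ W` is in the closure of `F U ∪ X`, where `X` has rank at most `h`, and `U` either has at most
two elements and meets no pocket, or is contained in one pocket and its attachments.  If every
pocket contains at most `n₀` elements of `W`, and these have an injective choice of ends, then
`n² ≤ 6 n + (40 n₀ + 330) h`. -/
theorem rcnt_pockets_grid [Fintype V] [Fintype ι] (M : Matroid α) [M.Finite] (D W : Finset α)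
    (hDE : (D : Set α) ⊆ M.E) (hWE : (W : Set α) ⊆ M.E) (hDW : Disjoint (D : Set α) (W : Set α))
    (hD : M.Indep (D : Set α)) (hrk : rk M ((W : Set α) ∪ (D : Set α)) = Fintype.card V)
    (F : Finset V → Set α) (hFm : ∀ U U', U ⊆ U' → F U ⊆ F U') (hFr : ∀ U, rk M (F U) ≤ U.card)
    (X : Set α) (h : ℕ) (hX : rk M X ≤ h) (S : α → Finset V)
    (pk : V → Option ι) (at' : ι → Finset V) (hat : ∀ i, (at' i).card ≤ 2)
    (hatp : ∀ i, ∀ x ∈ at' i, pk x = none)
    (hS : ∀ e, e ∈ D ∨ e ∈ W → ((∀ x ∈ S e, pk x = none) ∧ (S e).card ≤ 2) ∨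
      ∃ i, ∀ x ∈ S e, pk x = some i ∨ x ∈ at' i)
    (hSc : ∀ e, e ∈ D ∨ e ∈ W → e ∈ M.closure (F (S e) ∪ X))
    (ends : α → Sym2 (ℕ × ℕ)) (n n₀ : ℕ) (hn : 2 ≤ n) (hG : Grd (W : Set α) ends 0 0 n n)
    (hB : Bic ((M ／ (D : Set α)) ↾ (W : Set α))✶ (W : Set α) ends)
    (hW : ∀ i, (W.filter (fun w => ∃ x ∈ S w, pk x = some i)).card ≤ n₀ ∧
      ∃ ψ : α → ℕ × ℕ, InjOn ψ (W.filter (fun w => ∃ x ∈ S w, pk x = some i) : Set α) ∧
        ∀ e ∈ W.filter (fun w => ∃ x ∈ S w, pk x = some i), ψ e ∈ ends e) :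
    n * n ≤ 6 * n + (40 * n₀ + 330) * h := by
  set N := (M ／ (D : Set α)) ↾ (W : Set α) with hN
  have hWMD : (W : Set α) ⊆ M.E \ (D : Set α) := fun e he =>
    ⟨hWE he, fun h => Set.disjoint_left.1 hDW h he⟩
  have hNfin : N.Finite := by
    refine ⟨?_⟩
    rw [hN, Matroid.restrict_ground_eq]
    exact W.finite_toSet
  have hNE : N.E = (W : Set α) := by rw [hN, Matroid.restrict_ground_eq]
  have hrN : ∀ Y : Set α, Y ⊆ (W : Set α) → rk N Y + D.card = rk M (Y ∪ (D : Set α)) := by
    intro Y hY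
    have h1 : rk N Y = rk (M ／ (D : Set α)) Y := by
      unfold rk
      rw [hN, Matroid.restrict_eRk_eq _ hY]
    rw [h1, ← rk_contract_set hDE (hY.trans hWMD), rk_indep hD, Set.ncard_coe_finset]
  have hWN : rk N (W : Set α) + D.card = Fintype.card V := by
    rw [hrN _ (subset_refl _), hrk]
  have hdual : ∀ Y : Set α, Y ⊆ (W : Set α) →
      rk N✶ Y + rk N (W : Set α) = rk N ((W : Set α) \ Y) + Y.ncard := by
    intro Y hY
    have := rk_dual (M := N) (X := Y) (by rw [hNE]; exact hY)
    rwa [hNE] at this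
  have hmain := rcnt_pockets M D W S pk at' hat hatp ends h 4 4 n₀ ?_ hS ?_
    (fun A hA hA4 => exists_ends_of_card_le_four A ends hA4 (hG.inj.mono (fun e he => hA he))
      (fun e he => grd_not_diag hG (hA he)))
    (fun u A hA hu => grd_deg hG u A (fun e he => hA he) hu) hW
  · have h1 : rk N✶ (W : Set α) = n * n := rk_rect hB hG hn hn
    have h2 := hdual (W : Set α) (subset_refl _)
    rw [h1, sdiff_self, Set.ncard_coe_finset] at h2
    have h3 : rk N (∅ : Set α) = 0 := by
      have := rk_le_ncard N (X := (∅ : Set α)) Set.finite_empty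
      rw [Set.ncard_empty] at this
      exact Nat.le_zero.1 this
    rw [h3] at h2
    have h4 := grd_card_ge hG W.finite_toSet
    rw [Set.ncard_coe_finset] at h4
    have h5 : n * (n - 1) + n = n * n := by
      obtain ⟨m, rfl⟩ : ∃ m, n = m + 1 := ⟨n - 1, by omega⟩
      simp only [Nat.add_sub_cancel]
      ring
    have h6 : (4 + 1) * (4 * 4 * 4 + 1) * h + (4 + 1) * (2 * n₀ * 4 + 1) * h =
        (40 * n₀ + 330) * h := by ring
    omega
  · intro K
    have h1 : {e | (e ∈ D ∨ e ∈ W) ∧ ∀ x ∈ K, x ∉ S e} ⊆ M.closure (F Kᶜ ∪ X) := by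
      rintro e ⟨he, heK⟩
      refine M.closure_subset_closure (union_subset_union_left _ (hFm _ _ ?_)) (hSc e he)
      intro x hx
      rw [Finset.mem_compl]
      exact fun hxK => heK x hxK hx
    have h2 := rk_mono M h1
    rw [rk_closure] at h2
    have h3 := rk_submod M (F Kᶜ) X
    have h4 := hFr Kᶜ
    have h5 := Finset.card_compl_add_card K
    omega
  · rintro A hA ⟨ψ, hψ, hψe⟩
    have hAW : (A : Set α) ⊆ (W : Set α) := fun e he => hA he
    have h1 : N✶.Indep (A : Set α) := hB.ind _ ψ hAW hψ hψe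
    have h2 := rk_indep h1
    have h3 := hdual _ hAW
    have h4 := hrN _ (sdiff_subset : (W : Set α) \ (A : Set α) ⊆ (W : Set α))
    rw [union_comm]
    omega

end BIC.Cnt
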